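import Mathlib

/-!
# The distance spectrum does not determine bipartiteness

Two explicit connected graphs on 20 vertices with the same distance spectrum, `Γ` bipartite and `Ω`
not. `Γ` is the path on 4 vertices with its vertices replaced by independent sets of sizes
`1, 14, 2, 3`. `Ω` is obtained from the graph on `a, b, c, d, e` with edges
`ab, ad, ae, bc, be, cd` by replacing the vertices by independent sets of sizes `1, 1, 2, 8, 8`.
The two distance matrices are similar over `ℚ` by an explicit integer matrix.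
-/

set_option autoImplicit false

namespace Pool.Agent.Results.MP_69260a_co.BipartiteMate

open Matrix

/-- The distance matrix of a graph, as a real matrix. -/
noncomputable def distMatrix {V : Type*} (G : SimpleGraph V) : Matrix V V ℝ :=
  Matrix.of fun u v => (G.dist u v : ℝ)

/-- Table lookup. -/
def lk {α : Type} [Inhabited α] (t : List (List α)) (i j : Fin 20) : α :=
  ((t.getD i.val []).getD j.val default)

def tG : List (List ℕ) :=
  [[0, 1, 1, 1, 1, 1, 1, 1, 1, 1, 1, 1, 1, 1, 1, 2, 2, 3, 3, 3],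
   [1, 0, 2, 2, 2, 2, 2, 2, 2, 2, 2, 2, 2, 2, 2, 1, 1, 2, 2, 2],
   [1, 2, 0, 2, 2, 2, 2, 2, 2, 2, 2, 2, 2, 2, 2, 1, 1, 2, 2, 2],
   [1, 2, 2, 0, 2, 2, 2, 2, 2, 2, 2, 2, 2, 2, 2, 1, 1, 2, 2, 2],
   [1, 2, 2, 2, 0, 2, 2, 2, 2, 2, 2, 2, 2, 2, 2, 1, 1, 2, 2, 2],
   [1, 2, 2, 2, 2, 0, 2, 2, 2, 2, 2, 2, 2, 2, 2, 1, 1, 2, 2, 2],
   [1, 2, 2, 2, 2, 2, 0, 2, 2, 2, 2, 2, 2, 2, 2, 1, 1, 2, 2, 2],
   [1, 2, 2, 2, 2, 2, 2, 0, 2, 2, 2, 2, 2, 2, 2, 1, 1, 2, 2, 2],
   [1, 2, 2, 2, 2, 2, 2, 2, 0, 2, 2, 2, 2, 2, 2, 1, 1, 2, 2, 2],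
   [1, 2, 2, 2, 2, 2, 2, 2, 2, 0, 2, 2, 2, 2, 2, 1, 1, 2, 2, 2],
   [1, 2, 2, 2, 2, 2, 2, 2, 2, 2, 0, 2, 2, 2, 2, 1, 1, 2, 2, 2],
   [1, 2, 2, 2, 2, 2, 2, 2, 2, 2, 2, 0, 2, 2, 2, 1, 1, 2, 2, 2],
   [1, 2, 2, 2, 2, 2, 2, 2, 2, 2, 2, 2, 0, 2, 2, 1, 1, 2, 2, 2],
   [1, 2, 2, 2, 2, 2, 2, 2, 2, 2, 2, 2, 2, 0, 2, 1, 1, 2, 2, 2],
   [1, 2, 2, 2, 2, 2, 2, 2, 2, 2, 2, 2, 2, 2, 0, 1, 1, 2, 2, 2],
   [2, 1, 1, 1, 1, 1, 1, 1, 1, 1, 1, 1, 1, 1, 1, 0, 2, 1, 1, 1],
   [2, 1, 1, 1, 1, 1, 1, 1, 1, 1, 1, 1, 1, 1, 1, 2, 0, 1, 1, 1],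
   [3, 2, 2, 2, 2, 2, 2, 2, 2, 2, 2, 2, 2, 2, 2, 1, 1, 0, 2, 2],
   [3, 2, 2, 2, 2, 2, 2, 2, 2, 2, 2, 2, 2, 2, 2, 1, 1, 2, 0, 2],
   [3, 2, 2, 2, 2, 2, 2, 2, 2, 2, 2, 2, 2, 2, 2, 1, 1, 2, 2, 0]]

def tO : List (List ℕ) :=
  [[0, 1, 2, 2, 1, 1, 1, 1, 1, 1, 1, 1, 1, 1, 1, 1, 1, 1, 1, 1],
   [1, 0, 1, 1, 2, 2, 2, 2, 2, 2, 2, 2, 1, 1, 1, 1, 1, 1, 1, 1],
   [2, 1, 0, 2, 1, 1, 1, 1, 1, 1, 1, 1, 2, 2, 2, 2, 2, 2, 2, 2],
   [2, 1, 2, 0, 1, 1, 1, 1, 1, 1, 1, 1, 2, 2, 2, 2, 2, 2, 2, 2],
   [1, 2, 1, 1, 0, 2, 2, 2, 2, 2, 2, 2, 2, 2, 2, 2, 2, 2, 2, 2],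
   [1, 2, 1, 1, 2, 0, 2, 2, 2, 2, 2, 2, 2, 2, 2, 2, 2, 2, 2, 2],
   [1, 2, 1, 1, 2, 2, 0, 2, 2, 2, 2, 2, 2, 2, 2, 2, 2, 2, 2, 2],
   [1, 2, 1, 1, 2, 2, 2, 0, 2, 2, 2, 2, 2, 2, 2, 2, 2, 2, 2, 2],
   [1, 2, 1, 1, 2, 2, 2, 2, 0, 2, 2, 2, 2, 2, 2, 2, 2, 2, 2, 2],
   [1, 2, 1, 1, 2, 2, 2, 2, 2, 0, 2, 2, 2, 2, 2, 2, 2, 2, 2, 2],
   [1, 2, 1, 1, 2, 2, 2, 2, 2, 2, 0, 2, 2, 2, 2, 2, 2, 2, 2, 2],
   [1, 2, 1, 1, 2, 2, 2, 2, 2, 2, 2, 0, 2, 2, 2, 2, 2, 2, 2, 2],
   [1, 1, 2, 2, 2, 2, 2, 2, 2, 2, 2, 2, 0, 2, 2, 2, 2, 2, 2, 2],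
   [1, 1, 2, 2, 2, 2, 2, 2, 2, 2, 2, 2, 2, 0, 2, 2, 2, 2, 2, 2],
   [1, 1, 2, 2, 2, 2, 2, 2, 2, 2, 2, 2, 2, 2, 0, 2, 2, 2, 2, 2],
   [1, 1, 2, 2, 2, 2, 2, 2, 2, 2, 2, 2, 2, 2, 2, 0, 2, 2, 2, 2],
   [1, 1, 2, 2, 2, 2, 2, 2, 2, 2, 2, 2, 2, 2, 2, 2, 0, 2, 2, 2],
   [1, 1, 2, 2, 2, 2, 2, 2, 2, 2, 2, 2, 2, 2, 2, 2, 2, 0, 2, 2],
   [1, 1, 2, 2, 2, 2, 2, 2, 2, 2, 2, 2, 2, 2, 2, 2, 2, 2, 0, 2],
   [1, 1, 2, 2, 2, 2, 2, 2, 2, 2, 2, 2, 2, 2, 2, 2, 2, 2, 2, 0]]

def tP : List (List ℤ) :=
  [[17906, 23477, 24616, 24616, 30187, 30187, 30187, 30187, 30187, 30187, 30187, 30187, 30973,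
   30973, 30973, 30973, 30973, 30973, 30973, 30973],
   [23797, 31090, 32909, 32909, 40202, 39734, 40238, 40238, 40202, 40238, 40238, 40202, 41141,
   41141, 41141, 41141, 41141, 41141, 41105, 41141],
   [23821, 31066, 32897, 32897, 40142, 40178, 40178, 40178, 40142, 40178, 40178, 40142, 41204,
   41204, 41204, 41204, 41204, 40700, 41168, 41204],
   [23821, 31066, 32897, 32897, 40142, 40178, 40178, 40178, 40142, 40178, 40178, 40142, 41204,
   41204, 41204, 41204, 41204, 41204, 41168, 40700],
   [23797, 31090, 32909, 32909, 40202, 40238, 40238, 40238, 40202, 39734, 40238, 40202, 41141,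
   41141, 41141, 41141, 41141, 41141, 41105, 41141],
   [23629, 31258, 32993, 32993, 40118, 40154, 40154, 40154, 40118, 40154, 40154, 40118, 41141,
   41141, 41141, 41141, 41141, 41141, 41105, 41141],
   [23821, 31066, 32897, 32897, 40142, 40178, 40178, 40178, 40142, 40178, 40178, 40142, 41204,
   41204, 41204, 41204, 40700, 41204, 41168, 41204],
   [24013, 30874, 32801, 32801, 40166, 40202, 40202, 40202, 40166, 40202, 40202, 40166, 41141,
   41141, 41141, 41141, 41141, 41141, 41105, 41141],
   [23821, 31066, 32897, 32897, 40142, 40178, 40178, 40178, 40142, 40178, 40178, 40142, 41204,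
   41204, 41204, 40700, 41204, 41204, 41168, 41204],
   [23797, 31090, 32909, 32909, 40202, 40238, 39734, 40238, 40202, 40238, 40238, 40202, 41141,
   41141, 41141, 41141, 41141, 41141, 41105, 41141],
   [23797, 31090, 32909, 32909, 40202, 40238, 40238, 40238, 40202, 40238, 39734, 40202, 41141,
   41141, 41141, 41141, 41141, 41141, 41105, 41141],
   [23821, 31066, 32897, 32897, 40142, 40178, 40178, 40178, 40142, 40178, 40178, 40142, 41204,
   40700, 41204, 41204, 41204, 41204, 41168, 41204],
   [23821, 31066, 32897, 32897, 40142, 40178, 40178, 40178, 40142, 40178, 40178, 40142, 41204,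
   41204, 40700, 41204, 41204, 41204, 41168, 41204],
   [23821, 31066, 32897, 32897, 40142, 40178, 40178, 40178, 40142, 40178, 40178, 40142, 40700,
   41204, 41204, 41204, 41204, 41204, 41168, 41204],
   [23797, 31090, 32909, 32909, 40202, 40238, 40238, 39734, 40202, 40238, 40238, 40202, 41141,
   41141, 41141, 41141, 41141, 41141, 41105, 41141],
   [13832, 17951, 19147, 18895, 23266, 23266, 23266, 23266, 23518, 23266, 23266, 23266, 23806,
   23806, 23806, 23806, 23806, 23806, 23806, 23806],
   [13712, 18071, 18955, 19207, 23314, 23314, 23314, 23314, 23062, 23314, 23314, 23314, 23806,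
   23806, 23806, 23806, 23806, 23806, 23806, 23806],
   [24823, 32242, 34103, 34439, 42026, 41858, 41858, 41858, 41858, 41858, 41858, 41858, 42793,
   42793, 42793, 42793, 42793, 42793, 42961, 42793],
   [24727, 32338, 34403, 34235, 42014, 41846, 41846, 41846, 41846, 41846, 41846, 41846, 42856,
   42856, 42856, 42856, 42856, 42856, 42520, 42856],
   [24703, 32362, 34415, 34247, 41570, 41906, 41906, 41906, 41906, 41906, 41906, 41906, 42793,
   42793, 42793, 42793, 42793, 42793, 42961, 42793]]

def tQ : List (List ℤ) :=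
  [[-2081572272, 291907280, 291907280, 291907280, 291907280, 15660277, 291907280, 568154283,
   291907280, 291907280, 291907280, 291907280, 291907280, 291907280, 291907280, 2368206200,
   2368206200, -1684769072, -1684769072, -1684769072],
   [-915152016, 135039472, 135039472, 135039472, 135039472, 411286475, 135039472, -141207531,
   135039472, 135039472, 135039472, 135039472, 135039472, 135039472, 135039472, 2462688976,
   2462688976, -1297700608, -1297700608, -1297700608],
   [-1083257304, 116218040, 668712046, 668712046, 116218040, -1817510981, 668712046, -1817510981,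
   668712046, 116218040, 116218040, 668712046, 668712046, 668712046, 116218040, 137580452,
   137580452, -863373622, 241614390, -310879616],
   [-1083257304, 116218040, -436275966, -436275966, 116218040, 2326194064, -436275966, 1773700058,
   -436275966, 116218040, 116218040, -436275966, -436275966, -436275966, 116218040, 137580452,
   137580452, 241614390, -863373622, -310879616],
   [83162952, -40649768, 511844238, 511844238, -40649768, -1974378789, 511844238, -1974378789,
   511844238, -40649768, -40649768, 511844238, 511844238, 511844238, -40649768, 232063228,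
   232063228, 76188848, 628682854, -476305158],
   [83162952, -593143774, -40649768, -40649768, -40649768, 235597235, -40649768, 235597235,
   -40649768, -40649768, -40649768, -40649768, -40649768, -40649768, -40649768, 232063228,
   232063228, 76188848, 76188848, 76188848],
   [83162952, -40649768, -40649768, -40649768, -40649768, 235597235, -40649768, 235597235,
   -40649768, -593143774, -40649768, -40649768, -40649768, -40649768, -40649768, 232063228,
   232063228, 76188848, 76188848, 76188848],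
   [83162952, -40649768, -40649768, -40649768, -40649768, 235597235, -40649768, 235597235,
   -40649768, -40649768, -40649768, -40649768, -40649768, -40649768, -593143774, 232063228,
   232063228, 76188848, 76188848, 76188848],
   [83162952, -40649768, -593143774, -593143774, -40649768, 2169326256, -593143774, 1616832250,
   -593143774, -40649768, -40649768, -593143774, -593143774, -593143774, -40649768, 784557234,
   -320430778, 628682854, -476305158, 76188848],
   [83162952, -40649768, -40649768, -40649768, -593143774, 235597235, -40649768, 235597235,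
   -40649768, -40649768, -40649768, -40649768, -40649768, -40649768, -40649768, 232063228,
   232063228, 76188848, 76188848, 76188848],
   [83162952, -40649768, -40649768, -40649768, -40649768, 235597235, -40649768, 235597235,
   -40649768, -40649768, -593143774, -40649768, -40649768, -40649768, -40649768, 232063228,
   232063228, 76188848, 76188848, 76188848],
   [83162952, 511844238, -40649768, -40649768, 511844238, -1974378789, -40649768, -869390777,
   -40649768, 511844238, 511844238, -40649768, -40649768, -40649768, 511844238, -320430778,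
   784557234, -476305158, 76188848, 628682854],
   [372435336, -17362314, -17362314, -17362314, -17362314, 258884689, -17362314, 258884689,
   -17362314, -17362314, -17362314, -17362314, -17362314, -569856320, -17362314, -657981756,
   -657981756, 232216428, 232216428, 232216428],
   [372435336, -17362314, -17362314, -17362314, -17362314, 258884689, -17362314, 258884689,
   -17362314, -17362314, -17362314, -569856320, -17362314, -17362314, -17362314, -657981756,
   -657981756, 232216428, 232216428, 232216428],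
   [372435336, -17362314, -17362314, -17362314, -17362314, 258884689, -17362314, 258884689,
   -17362314, -17362314, -17362314, -17362314, -569856320, -17362314, -17362314, -657981756,
   -657981756, 232216428, 232216428, 232216428],
   [372435336, -17362314, -17362314, -17362314, -17362314, 258884689, -17362314, 258884689,
   -569856320, -17362314, -17362314, -17362314, -17362314, -17362314, -17362314, -657981756,
   -657981756, 232216428, 232216428, 232216428],
   [372435336, -17362314, -17362314, -17362314, -17362314, 258884689, -569856320, 258884689,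
   -17362314, -17362314, -17362314, -17362314, -17362314, -17362314, -17362314, -657981756,
   -657981756, 232216428, 232216428, 232216428],
   [372435336, -17362314, -569856320, -17362314, -17362314, 258884689, -17362314, 258884689,
   -17362314, -17362314, -17362314, -17362314, -17362314, -17362314, -17362314, -657981756,
   -657981756, 232216428, 232216428, 232216428],
   [372435336, -17362314, 535131692, 535131692, -17362314, -1951091335, 535131692, -1951091335,
   535131692, -17362314, -17362314, 535131692, 535131692, 535131692, -17362314, -657981756,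
   -657981756, 232216428, 232216428, 232216428],
   [372435336, -17362314, -17362314, -569856320, -17362314, 258884689, -17362314, 258884689,
   -17362314, -17362314, -17362314, -17362314, -17362314, -17362314, -17362314, -657981756,
   -657981756, 232216428, 232216428, 232216428]]

/-- A graph from a symmetric table with zero diagonal: adjacency means table entry `1`. -/
def mkG (t : List (List ℕ)) (hs : ∀ u v : Fin 20, lk t u v = lk t v u)
    (h0 : ∀ u : Fin 20, lk t u u = 0) : SimpleGraph (Fin 20) where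
  Adj u v := lk t u v = 1
  symm := ⟨fun u v h => by rw [hs]; exact h⟩
  loopless := ⟨fun u h => by simp [h0] at h⟩

theorem tG_symm : ∀ u v : Fin 20, lk tG u v = lk tG v u := by decide +kernel
theorem tG_diag : ∀ u : Fin 20, lk tG u u = 0 := by decide +kernel
theorem tO_symm : ∀ u v : Fin 20, lk tO u v = lk tO v u := by decide +kernel
theorem tO_diag : ∀ u : Fin 20, lk tO u u = 0 := by decide +kernel

theorem tG_lip : ∀ u v w : Fin 20, lk tG v w = 1 → lk tG u w ≤ lk tG u v + 1 := by
  decide +kernel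
theorem tO_lip : ∀ u v w : Fin 20, lk tO v w = 1 → lk tO u w ≤ lk tO u v + 1 := by
  decide +kernel
theorem tG_pred : ∀ u v : Fin 20, u ≠ v → ∃ w, lk tG w v = 1 ∧ lk tG u v = lk tG u w + 1 := by
  decide +kernel
theorem tO_pred : ∀ u v : Fin 20, u ≠ v → ∃ w, lk tO w v = 1 ∧ lk tO u v = lk tO u w + 1 := by
  decide +kernel

/-- A table satisfying the obvious local conditions is the distance function. -/
theorem dist_table (G : SimpleGraph (Fin 20)) (D : Fin 20 → Fin 20 → ℕ)
    (h0 : ∀ u, D u u = 0) (h1 : ∀ u v w, G.Adj v w → D u w ≤ D u v + 1)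
    (h2 : ∀ u v, u ≠ v → ∃ w, G.Adj w v ∧ D u v = D u w + 1) :
    G.Connected ∧ ∀ u v, G.dist u v = D u v := by
  have lower : ∀ (u a b : Fin 20) (p : G.Walk a b), D u b ≤ D u a + p.length := by
    intro u a b p
    induction p with
    | nil => simp
    | cons h p ih =>
      have := h1 u _ _ h
      simp only [SimpleGraph.Walk.length_cons]
      omega
  have upper : ∀ (k : ℕ) (u v : Fin 20), D u v = k → ∃ p : G.Walk u v, p.length = k := by
    intro k
    induction k with
    | zero =>
      intro u v h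
      by_cases huv : u = v
      · subst huv
        exact ⟨SimpleGraph.Walk.nil, rfl⟩
      · obtain ⟨w, _, hw⟩ := h2 u v huv
        omega
    | succ k ih =>
      intro u v h
      have huv : u ≠ v := by
        rintro rfl
        rw [h0] at h
        omega
      obtain ⟨w, hadj, hw⟩ := h2 u v huv
      obtain ⟨p, hp⟩ := ih u w (by omega)
      exact ⟨p.append (SimpleGraph.Walk.cons hadj SimpleGraph.Walk.nil), by
        simp [SimpleGraph.Walk.length_append, hp]⟩
  have hconn : G.Connected := by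
    have : Nonempty (Fin 20) := ⟨0⟩
    exact SimpleGraph.Connected.mk fun u v => by
      obtain ⟨p, _⟩ := upper (D u v) u v rfl
      exact ⟨p⟩
  refine ⟨hconn, fun u v => le_antisymm ?_ ?_⟩
  · obtain ⟨p, hp⟩ := upper (D u v) u v rfl
    calc G.dist u v ≤ p.length := SimpleGraph.dist_le p
      _ = D u v := hp
  · obtain ⟨p, hp⟩ := hconn.exists_walk_length_eq_dist u v
    have := lower u u v p
    rw [h0] at this
    omega

/-- The bipartite graph. -/
def Γ : SimpleGraph (Fin 20) := mkG tG tG_symm tG_diag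

/-- The graph that is not bipartite. -/
def Ω : SimpleGraph (Fin 20) := mkG tO tO_symm tO_diag

theorem Γ_dist : Γ.Connected ∧ ∀ u v, Γ.dist u v = lk tG u v :=
  dist_table Γ (lk tG) tG_diag tG_lip tG_pred

theorem Ω_dist : Ω.Connected ∧ ∀ u v, Ω.dist u v = lk tO u v :=
  dist_table Ω (lk tO) tO_diag tO_lip tO_pred

/-- Entrywise identities behind the similarity. -/
theorem inter_tab : ∀ i j : Fin 20,
    (∑ k : Fin 20, ((lk tG i k : ℕ) : ℤ) * lk tP k j) =
      ∑ k : Fin 20, lk tP i k * ((lk tO k j : ℕ) : ℤ) := by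
  decide +kernel

theorem inv_tab : ∀ i j : Fin 20,
    (∑ k : Fin 20, lk tP i k * lk tQ k j) = if i = j then 278456979024 else 0 := by
  decide +kernel

/-- The real similarity matrix and its (scaled) inverse. -/
noncomputable def P : Matrix (Fin 20) (Fin 20) ℝ := Matrix.of fun i j => ((lk tP i j : ℤ) : ℝ)
noncomputable def Q : Matrix (Fin 20) (Fin 20) ℝ := Matrix.of fun i j => ((lk tQ i j : ℤ) : ℝ)

theorem inter : distMatrix Γ * P = P * distMatrix Ω := by
  ext i j
  have h := inter_tab i j
  have h' := congrArg (fun z : ℤ => (z : ℝ)) h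
  simp only [Int.cast_sum, Int.cast_mul, Int.cast_natCast] at h'
  simp only [Matrix.mul_apply, distMatrix, P, Matrix.of_apply, Γ_dist.2, Ω_dist.2]
  exact h'

theorem PQ : P * Q = (278456979024 : ℝ) • (1 : Matrix (Fin 20) (Fin 20) ℝ) := by
  ext i j
  have h := inv_tab i j
  have h' := congrArg (fun z : ℤ => (z : ℝ)) h
  simp only [Int.cast_sum, Int.cast_mul] at h'
  simp only [Matrix.mul_apply, P, Q, Matrix.of_apply, Matrix.smul_apply, Matrix.one_apply]
  rw [h']
  split_ifs <;> simp

theorem charpoly_eq : (distMatrix Γ).charpoly = (distMatrix Ω).charpoly := by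
  have h1 : P * ((1 / 278456979024 : ℝ) • Q) = 1 := by
    rw [Matrix.mul_smul, PQ, smul_smul]
    norm_num
  have h2 : ((1 / 278456979024 : ℝ) • Q) * P = 1 := mul_eq_one_comm.mp h1
  have hP : P⁻¹ = (1 / 278456979024 : ℝ) • Q := Matrix.inv_eq_right_inv h1
  have h3 : P * distMatrix Ω * P⁻¹ = distMatrix Γ := by
    rw [hP, ← inter, Matrix.mul_assoc, h1, Matrix.mul_one]
  have h4 := Matrix.charpoly_units_conj
    (⟨P, (1 / 278456979024 : ℝ) • Q, h1, h2⟩ : (Matrix (Fin 20) (Fin 20) ℝ)ˣ) (distMatrix Ω)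
  rw [← h3]
  exact h4

/-- the two colour classes of `Γ`: vertex `0` (class of size `1`), the classes of sizes
`14`, `2`, `3` -/
def col (u : Fin 20) : Fin 2 := if u.val < 1 ∨ (15 ≤ u.val ∧ u.val < 17) then 0 else 1

theorem col_ne : ∀ u v : Fin 20, lk tG u v = 1 → col u ≠ col v := by decide +kernel

theorem Γ_bip : Γ.IsBipartite :=
  ⟨SimpleGraph.Coloring.mk col fun {u v} h => col_ne u v h⟩

theorem Ω_not_bip : ¬ Ω.IsBipartite := by
  rintro ⟨c⟩
  have h1 : Ω.Adj 0 1 := by show lk tO 0 1 = 1; decide +kernel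
  have h2 : Ω.Adj 0 12 := by show lk tO 0 12 = 1; decide +kernel
  have h3 : Ω.Adj 1 12 := by show lk tO 1 12 = 1; decide +kernel
  have e1 := c.valid h1
  have e2 := c.valid h2
  have e3 := c.valid h3
  omega

/-- **The distance spectrum of a connected graph does not determine whether it is bipartite.**
There are two connected graphs on `20` vertices whose distance matrices have the same characteristic
polynomial (hence the same eigenvalues with the same multiplicities), the first bipartite and the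
second not. -/
theorem result : ∃ (Γ Ω : SimpleGraph (Fin 20)), Γ.Connected ∧ Ω.Connected ∧
    (distMatrix Γ).charpoly = (distMatrix Ω).charpoly ∧ Γ.IsBipartite ∧ ¬ Ω.IsBipartite :=
  ⟨Γ, Ω, Γ_dist.1, Ω_dist.1, charpoly_eq, Γ_bip, Ω_not_bip⟩

end Pool.Agent.Results.MP_69260a_co.BipartiteMate
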